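import Pool.Agent.Helper23.MV.StH

set_option autoImplicit false

namespace Pool.Agent.Helper69.MV

open Finset ArithmeticFunction
open Pool.Agent.Helper23.MV

private lemma ffb_sq (z : ℂ) (h : z ^ 2 = 1) : z = 1 ∨ z = -1 := by
  have h1 : (z - 1) * (z + 1) = 0 := by linear_combination h
  rcases mul_eq_zero.mp h1 with h | h
  · left; linear_combination h
  · right; linear_combination h

private lemma ffb_val (e : PCh) (he : e.χ ^ 2 = 1) (n : ℕ) :
    e.ev n = 0 ∨ e.ev n = 1 ∨ e.ev n = -1 := by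
  unfold PCh.ev
  by_cases hu : IsUnit (n : ZMod e.r)
  · right
    have h1 : (e.χ (n : ZMod e.r)) ^ 2 = 1 := by
      have h2 : (e.χ ^ 2) (n : ZMod e.r) = (1 : DirichletCharacter ℂ e.r) (n : ZMod e.r) := by
        rw [he]
      rw [MulChar.pow_apply' _ two_ne_zero, MulChar.one_apply hu] at h2
      exact h2
    exact ffb_sq _ h1
  · left
    exact MulChar.map_nonunit _ hu

private lemma ffb_re (e : PCh) (he : e.χ ^ 2 = 1) (n : ℕ) :
    (e.ev n).im = 0 ∧ |(e.ev n).re| ≤ 1 := by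
  rcases ffb_val e he n with h | h | h <;> rw [h] <;> simp

private lemma ffb_ofReal (e : PCh) (he : e.χ ^ 2 = 1) (n : ℕ) :
    e.ev n = (((e.ev n).re : ℝ) : ℂ) := by
  apply Complex.ext
  · simp
  · simp [(ffb_re e he n).1]

private lemma ffb_ev_mul (e : PCh) (m n : ℕ) : e.ev (m * n) = e.ev m * e.ev n := by
  unfold PCh.ev
  rw [Nat.cast_mul, map_mul]

private lemma ffb_ev_one (e : PCh) : e.ev 1 = 1 := by
  unfold PCh.ev
  rw [Nat.cast_one, map_one]

private lemma ffb_re_mul (e : PCh) (he : e.χ ^ 2 = 1) (m n : ℕ) :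
    (e.ev (m * n)).re = (e.ev m).re * (e.ev n).re := by
  rw [ffb_ev_mul, Complex.mul_re, (ffb_re e he m).1]
  ring

private noncomputable def ffbA (e : PCh) (δ : ℝ) : ArithmeticFunction ℝ :=
  ⟨fun n => if n = 0 then 0 else (e.ev n).re * (n : ℝ) ^ (-δ), by simp⟩

private lemma ffbA_apply (e : PCh) (δ : ℝ) (n : ℕ) (hn : n ≠ 0) :
    ffbA e δ n = (e.ev n).re * (n : ℝ) ^ (-δ) := by
  show (if n = 0 then (0 : ℝ) else (e.ev n).re * (n : ℝ) ^ (-δ)) = _
  rw [if_neg hn]

private lemma ffbA_mult (e : PCh) (he : e.χ ^ 2 = 1) (δ : ℝ) : (ffbA e δ).IsMultiplicative := by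
  constructor
  · rw [ffbA_apply _ _ _ one_ne_zero, ffb_ev_one]
    simp
  · intro m n hmn
    by_cases hm : m = 0
    · subst hm
      simp
    by_cases hn : n = 0
    · subst hn
      simp
    rw [ffbA_apply _ _ _ (mul_ne_zero hm hn), ffbA_apply _ _ _ hm, ffbA_apply _ _ _ hn,
      ffb_re_mul e he]
    push_cast
    rw [Real.mul_rpow (Nat.cast_nonneg m) (Nat.cast_nonneg n)]
    ring

private lemma ffb_eq (e : PCh) (δ : ℝ) (n : ℕ) :
    ff e δ n = (ffbA e δ * (zeta : ArithmeticFunction ℝ)) n := by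
  rw [coe_mul_zeta_apply]
  unfold ff
  apply Finset.sum_congr rfl
  intro d hd
  rw [ffbA_apply _ _ _ (Nat.pos_of_mem_divisors hd).ne']

private lemma ffb_geom (x : ℝ) (hx : |x| ≤ 1) (n : ℕ) : 0 ≤ ∑ i ∈ range n, x ^ i := by
  rcases le_or_gt 0 x with h | h
  · exact Finset.sum_nonneg (fun i _ => pow_nonneg h i)
  · have h1 := mul_neg_geom_sum x n
    have h2 : |x ^ n| ≤ 1 := by
      rw [abs_pow]
      exact pow_le_one₀ (abs_nonneg _) hx
    have h3 : 0 ≤ 1 - x ^ n := by linarith [(abs_le.mp h2).2]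
    by_contra hc
    rw [not_le] at hc
    have h4 : (1 - x) * ∑ i ∈ range n, x ^ i < 0 := mul_neg_of_pos_of_neg (by linarith) hc
    linarith

private lemma ffb_pp (e : PCh) (he : e.χ ^ 2 = 1) (δ : ℝ) (hδ : 0 ≤ δ) (p k : ℕ) (hp : p.Prime) :
    0 ≤ ff e δ (p ^ k) := by
  unfold ff
  rw [Nat.sum_divisors_prime_pow hp]
  have h1 : ∀ j ∈ range (k + 1), (e.ev (p ^ j)).re * ((p ^ j : ℕ) : ℝ) ^ (-δ) =
      ((e.ev p).re * (p : ℝ) ^ (-δ)) ^ j := by
    intro j _
    induction j with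
    | zero => simp [ffb_ev_one]
    | succ j ih =>
      rw [pow_succ, ffb_re_mul e he, pow_succ ((e.ev p).re * (p : ℝ) ^ (-δ)) j, ← ih (by
        simp only [Finset.mem_range] at *; omega)]
      push_cast
      rw [Real.mul_rpow (by positivity) (Nat.cast_nonneg p)]
      ring
  rw [Finset.sum_congr rfl h1]
  apply ffb_geom
  rw [abs_mul]
  have h2 : |(p : ℝ) ^ (-δ)| ≤ 1 := by
    rw [abs_of_nonneg (Real.rpow_nonneg (Nat.cast_nonneg p) _)]
    apply Real.rpow_le_one_of_one_le_of_nonpos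
    · exact_mod_cast hp.one_lt.le
    · linarith
  exact mul_le_one₀ (ffb_re e he p).2 (abs_nonneg _) h2

theorem hFfb : StFfb := by
  intro e δ he hδ
  have hmul : ∀ m n : ℕ, Nat.Coprime m n → ff e δ (m * n) = ff e δ m * ff e δ n := by
    intro m n hmn
    rw [ffb_eq, ffb_eq, ffb_eq]
    exact ((ffbA_mult e he δ).mul isMultiplicative_zeta.natCast).map_mul_of_coprime hmn
  refine ⟨ffb_re e he, ?_, hmul, ?_, ?_, ?_⟩
  · simp [ff, ffb_ev_one]
  · intro n
    induction n using Nat.recOnPosPrimePosCoprime with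
    | zero => simp [ff]
    | one => simp [ff, ffb_ev_one]
    | prime_pow p k hp hk => exact ffb_pp e he δ hδ p k hp
    | coprime a b ha hb hab iha ihb =>
      rw [hmul a b hab]
      exact mul_nonneg iha ihb
  · intro n hn
    unfold ff
    have h1 : ∑ d ∈ n.divisors, (e.ev d).re * (d : ℝ) ^ (-δ) ≤ ∑ d ∈ n.divisors, (1 : ℝ) := by
      apply Finset.sum_le_sum
      intro d hd
      have hd1 : (1 : ℝ) ≤ d := by exact_mod_cast Nat.pos_of_mem_divisors hd
      have h2 : (d : ℝ) ^ (-δ) ≤ 1 := Real.rpow_le_one_of_one_le_of_nonpos hd1 (by linarith)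
      have h3 : 0 ≤ (d : ℝ) ^ (-δ) := Real.rpow_nonneg (by linarith) _
      have h4 := (abs_le.mp (ffb_re e he d).2).2
      calc (e.ev d).re * (d : ℝ) ^ (-δ) ≤ 1 * (d : ℝ) ^ (-δ) :=
            mul_le_mul_of_nonneg_right h4 h3
        _ ≤ 1 := by rw [one_mul]; exact h2
    simpa using h1
  · intro p hp
    have hp2 : (2 : ℝ) ≤ p := by exact_mod_cast hp.two_le
    have hp0 : (0 : ℝ) < p := by linarith
    have hw0 : 0 < (p : ℝ) ^ (-1 - δ) := Real.rpow_pos_of_pos hp0 _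
    have hw1 : (p : ℝ) ^ (-1 - δ) ≤ 1 / p := by
      rw [one_div, ← Real.rpow_neg_one]
      exact Real.rpow_le_rpow_of_exponent_le (by linarith) (by linarith)
    have hpi : 1 / (p : ℝ) ≤ 1 / 2 := one_div_le_one_div_of_le (by norm_num) hp2
    have hpi0 : 0 < 1 / (p : ℝ) := by positivity
    set y := (e.ev p).re * (p : ℝ) ^ (-1 - δ) with hy
    have hre := abs_le.mp (ffb_re e he p).2
    have hy1 : y ≤ 1 / p := by
      calc y ≤ 1 * (p : ℝ) ^ (-1 - δ) := mul_le_mul_of_nonneg_right hre.2 hw0.le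
        _ ≤ 1 / p := by rw [one_mul]; exact hw1
    have hy2 : -(1 / (p : ℝ)) ≤ y := by
      have : (-1) * (p : ℝ) ^ (-1 - δ) ≤ y := mul_le_mul_of_nonneg_right hre.1 hw0.le
      linarith
    unfold gf
    rw [← hy]
    set t := 1 / (p : ℝ) with ht
    constructor
    · nlinarith [mul_nonneg (by linarith : 0 ≤ 1 - t) (by linarith : 0 ≤ y + t), mul_pos hpi0 hpi0]
    · nlinarith [mul_pos (by linarith : 0 < 1 - t) (by linarith : 0 < 1 - y)]

end Pool.Agent.Helper69.MV
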