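import Pool.Agent.Helper23.MV.StC

set_option autoImplicit false

namespace Pool.Agent.Helper69.MV

open Finset ArithmeticFunction
open Pool.Agent.Helper23.MV
open Pool.Agent.Helper48.BK (ex th Sx Apx StVau StTh)

private lemma min_ex (t : ℝ) : ‖ex t‖ = 1 := by
  unfold ex
  have : (2 * Real.pi * t * Complex.I : ℂ) = ((2 * Real.pi * t : ℝ) : ℂ) * Complex.I := by
    push_cast; ring
  rw [this, Complex.norm_exp_ofReal_mul_I]

private lemma min_split (H : ℕ) (α : ℝ) :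
    SfH H α = Sx (fun n => Λ n) (3 * H) α - Sx (fun n => Λ n) (2 * H) α -
      ∑ n ∈ Ioc (2 * H) (3 * H), ((Λ n - th n : ℝ) : ℂ) * ex (n * α) := by
  have h1 : Sx (fun n => Λ n) (3 * H) α = Sx (fun n => Λ n) (2 * H) α +
      ∑ n ∈ Ioc (2 * H) (3 * H), ((Λ n : ℝ) : ℂ) * ex (n * α) := by
    unfold Sx
    have h2 : Ioc 0 (3 * H) = Ioc 0 (2 * H) ∪ Ioc (2 * H) (3 * H) :=
      (Finset.Ioc_union_Ioc_eq_Ioc (Nat.zero_le _) (by omega)).symm
    rw [h2, Finset.sum_union]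
    rw [Finset.disjoint_left]
    intro x hx hx2
    rw [Finset.mem_Ioc] at hx hx2
    omega
  rw [h1]
  unfold SfH
  have h3 : ∑ n ∈ Ioc (2 * H) (3 * H), ((Λ n - th n : ℝ) : ℂ) * ex (n * α) =
      ∑ n ∈ Ioc (2 * H) (3 * H), ((Λ n : ℝ) : ℂ) * ex (n * α) -
        ∑ n ∈ Ioc (2 * H) (3 * H), ((th n : ℝ) : ℂ) * ex (n * α) := by
    rw [← Finset.sum_sub_distrib]
    apply Finset.sum_congr rfl
    intro n _
    push_cast
    ring
  rw [h3]
  ring

theorem hMin : StVau → StTh → StMin := by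
  rintro ⟨C₁, hC₁, hV⟩ ⟨hth, C₂, hC₂, hT⟩
  refine ⟨1536 * C₁ + 8 * C₂ + 1, 3, by linarith, by norm_num, ?_⟩
  intro H P α hH hP hPH hα
  have hH3 : 3 ≤ H := by exact_mod_cast hH
  have hH0 : (0 : ℝ) < H := by linarith
  have hP0 : 0 < P := by linarith
  have hP10 : P ^ 10 ≤ H := by
    have h1 : P ^ 10 ≤ ((H : ℝ) ^ (1 / 10 : ℝ)) ^ 10 := pow_le_pow_left₀ hP0.le hPH 10
    have h2 : ((H : ℝ) ^ (1 / 10 : ℝ)) ^ 10 = H := by
      rw [← Real.rpow_natCast, ← Real.rpow_mul hH0.le]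
      norm_num
    linarith
  have hPleH : P ≤ H := le_trans (le_self_pow₀ hP (by norm_num)) hP10
  have hP3 : P ^ 3 ≤ H := le_trans (pow_le_pow_right₀ hP (by norm_num)) hP10
  have hP4 : P ^ 4 ≤ H := le_trans (pow_le_pow_right₀ hP (by norm_num)) hP10
  obtain ⟨-, hmn⟩ := hα
  -- Dirichlet
  have hHP1 : 1 ≤ (H : ℝ) / P := by rw [le_div_iff₀ hP0]; linarith
  set n := ⌊(H : ℝ) / P⌋₊ with hn
  have hn1 : 0 < n := Nat.floor_pos.mpr hHP1
  obtain ⟨r, hr1, hr2⟩ := Real.exists_rat_abs_sub_le_and_den_le α hn1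
  set q := r.den with hq
  have hq1 : 1 ≤ q := r.pos
  have hq0 : (0 : ℝ) < q := by exact_mod_cast hq1
  have hrq : (r : ℝ) = (r.num : ℝ) / q := by
    rw [hq]
    exact_mod_cast (Rat.num_div_den r).symm
  rw [hrq] at hr1
  have hnlt : (H : ℝ) / P < n + 1 := Nat.lt_floor_add_one _
  have hnle : (n : ℝ) ≤ H / P := Nat.floor_le (by positivity)
  have hqn : (q : ℝ) ≤ n := by exact_mod_cast hr2
  have hqHP : (q : ℝ) ≤ H / P := le_trans hqn hnle
  have hn1' : (0 : ℝ) < (n : ℝ) + 1 := by positivity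
  have hqP : P < q := by
    by_contra hc
    rw [not_lt] at hc
    have h1 := hmn q hq1 hc r.num
    have h2 : 1 / (((n : ℝ) + 1) * q) ≤ P / H := by
      rw [div_le_div_iff₀ (by positivity) hH0, one_mul]
      have h3 : (H : ℝ) < (n + 1) * P := by
        rw [div_lt_iff₀ hP0] at hnlt
        exact hnlt
      have hq1r : (1 : ℝ) ≤ q := by exact_mod_cast hq1
      calc (H : ℝ) ≤ (n + 1) * P := h3.le
        _ ≤ ((n + 1) * P) * q := le_mul_of_one_le_right (by positivity) hq1r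
        _ = P * ((n + 1) * q) := by ring
    linarith
  have hApx : Apx α r.num q := by
    refine ⟨hq1, ?_, ?_⟩
    · rw [Int.isCoprime_iff_gcd_eq_one]
      exact r.reduced
    · refine hr1.trans ?_
      apply one_div_le_one_div_of_le (by positivity)
      nlinarith
  -- the parameter `U`
  set U := ⌈P⌉₊ with hU
  have hU1 : 1 ≤ U := Nat.one_le_iff_ne_zero.mpr (Nat.ceil_pos.mpr hP0).ne'
  have hUP : P ≤ U := Nat.le_ceil P
  have hU2P : (U : ℝ) ≤ 2 * P := by
    have := Nat.ceil_lt_add_one hP0.le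
    linarith
  have hU0 : (0 : ℝ) < U := by linarith
  have hUsq : (U : ℝ) ^ 2 ≤ 4 * P ^ 2 := by nlinarith
  have hU3 : (U : ℝ) ^ 2 ≤ 3 * H := by nlinarith [sq_nonneg (P ^ 2 - 2)]
  have hU3' : U ^ 2 ≤ 3 * H := by exact_mod_cast hU3
  have hq3 : q ≤ 3 * H := by
    have h1 : (q : ℝ) ≤ H := le_trans hqHP (div_le_self hH0.le hP)
    have h2 : q ≤ H := by exact_mod_cast h1
    omega
  have hsP : 0 < √P := Real.sqrt_pos.mpr hP0
  have hsPsq : √P * √P = P := Real.mul_self_sqrt hP0.le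
  have hsP1 : 1 ≤ √P := by rw [Real.one_le_sqrt]; exact hP
  set D := (H : ℝ) / √P with hD
  have hD0 : 0 < D := by positivity
  have hDs : D = (H : ℝ) * P ^ (-(1 / 2) : ℝ) := by
    rw [hD, Real.rpow_neg hP0.le, ← Real.sqrt_eq_rpow, div_eq_mul_inv]
  have hB : ((3 * H : ℕ) : ℝ) / √q + ((3 * H : ℕ) : ℝ) / √U + √(((3 * H : ℕ) : ℝ) * q) +
      (U : ℝ) ^ 2 ≤ 12 * D := by
    push_cast
    have b1 : 3 * (H : ℝ) / √q ≤ 3 * D := by
      rw [hD, ← mul_div_assoc]
      exact div_le_div_of_nonneg_left (by positivity) hsP (Real.sqrt_le_sqrt hqP.le)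
    have b2 : 3 * (H : ℝ) / √U ≤ 3 * D := by
      rw [hD, ← mul_div_assoc]
      exact div_le_div_of_nonneg_left (by positivity) hsP (Real.sqrt_le_sqrt hUP)
    have b3 : √(3 * (H : ℝ) * q) ≤ 2 * D := by
      rw [Real.sqrt_le_left (by positivity)]
      have e1 : (2 * D) ^ 2 = 4 * (H * (H / P)) := by
        rw [hD]
        field_simp
        rw [Real.sq_sqrt hP0.le]
        ring
      rw [e1]
      have h2 : (H : ℝ) * q ≤ H * (H / P) := mul_le_mul_of_nonneg_left hqHP hH0.le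
      nlinarith [mul_pos hH0 hq0]
    have b4 : (U : ℝ) ^ 2 ≤ 4 * D := by
      refine hUsq.trans ?_
      rw [hD, ← mul_div_assoc, le_div_iff₀ hsP]
      have h1 : √P ≤ P := by nlinarith
      have h2 : P ^ 2 * √P ≤ P ^ 2 * P := mul_le_mul_of_nonneg_left h1 (by positivity)
      nlinarith
    linarith
  have hL1 : 1 ≤ Real.log H := by
    rw [Real.le_log_iff_exp_le hH0]
    have := Real.exp_one_lt_d9
    linarith
  have hL3 : Real.log ((3 * H : ℕ) : ℝ) ≤ 2 * Real.log H := by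
    have h1 : Real.log ((3 * H : ℕ) : ℝ) ≤ Real.log ((H : ℝ) ^ 2) := by
      apply Real.log_le_log
      · push_cast; positivity
      · push_cast; nlinarith
    rw [Real.log_pow] at h1
    exact_mod_cast h1
  have hL30 : 0 ≤ Real.log ((3 * H : ℕ) : ℝ) := by
    apply Real.log_nonneg
    push_cast
    linarith
  have hL6 : Real.log ((3 * H : ℕ) : ℝ) ^ 6 ≤ 64 * Real.log H ^ 6 := by
    calc _ ≤ (2 * Real.log H) ^ 6 := pow_le_pow_left₀ hL30 hL3 6
      _ = _ := by ring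
  have hL2 : Real.log ((3 * H : ℕ) : ℝ) ^ 2 ≤ 4 * Real.log H ^ 6 := by
    calc _ ≤ (2 * Real.log H) ^ 2 := pow_le_pow_left₀ hL30 hL3 2
      _ = 4 * Real.log H ^ 2 := by ring
      _ ≤ 4 * Real.log H ^ 6 := by
        have := pow_le_pow_right₀ hL1 (by norm_num : 2 ≤ 6)
        linarith
  have hLL : 0 < Real.log H ^ 6 := by positivity
  have hS : ∀ y : ℕ, y ≤ 3 * H → ‖Sx (fun n => Λ n) y α‖ ≤ 768 * C₁ * D * Real.log H ^ 6 := by
    intro y hy
    refine (hV (3 * H) y U q r.num α (by omega) hy hU1 hU3' hq3 hApx).trans ?_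
    calc _ ≤ C₁ * (12 * D) * (64 * Real.log H ^ 6) := by
          apply mul_le_mul (mul_le_mul_of_nonneg_left hB hC₁.le) hL6 (by positivity) (by positivity)
      _ = _ := by ring
  have hE : ‖∑ n ∈ Ioc (2 * H) (3 * H), ((Λ n - th n : ℝ) : ℂ) * ex (n * α)‖ ≤
      8 * C₂ * D * Real.log H ^ 6 := by
    calc _ ≤ ∑ n ∈ Ioc (2 * H) (3 * H), ‖((Λ n - th n : ℝ) : ℂ) * ex (n * α)‖ :=
          norm_sum_le _ _
      _ = ∑ n ∈ Ioc (2 * H) (3 * H), (Λ n - th n) := by
          apply Finset.sum_congr rfl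
          intro n _
          rw [norm_mul, min_ex, mul_one, Complex.norm_real, Real.norm_eq_abs,
            abs_of_nonneg (by linarith [(hth n).2.1])]
      _ ≤ ∑ n ∈ Ioc 0 (3 * H), (Λ n - th n) := by
          apply Finset.sum_le_sum_of_subset_of_nonneg
          · apply Finset.Ioc_subset_Ioc_left
            omega
          · intro n _ _
            linarith [(hth n).2.1]
      _ ≤ C₂ * √((3 * H : ℕ) : ℝ) * Real.log ((3 * H : ℕ) : ℝ) ^ 2 := hT (3 * H) (by omega)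
      _ ≤ C₂ * (2 * D) * (4 * Real.log H ^ 6) := by
          have h1 : √((3 * H : ℕ) : ℝ) ≤ 2 * D := by
            rw [Real.sqrt_le_left (by positivity)]
            push_cast
            have e1 : (2 * D) ^ 2 = 4 * (H * (H / P)) := by
              rw [hD]
              field_simp
              rw [Real.sq_sqrt hP0.le]
              ring
            rw [e1]
            nlinarith
          apply mul_le_mul (mul_le_mul_of_nonneg_left h1 hC₂.le) hL2 (by positivity) (by positivity)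
      _ = _ := by ring
  rw [min_split]
  calc _ ≤ ‖Sx (fun n => Λ n) (3 * H) α - Sx (fun n => Λ n) (2 * H) α‖ +
        ‖∑ n ∈ Ioc (2 * H) (3 * H), ((Λ n - th n : ℝ) : ℂ) * ex (n * α)‖ := norm_sub_le _ _
    _ ≤ (‖Sx (fun n => Λ n) (3 * H) α‖ + ‖Sx (fun n => Λ n) (2 * H) α‖) +
        ‖∑ n ∈ Ioc (2 * H) (3 * H), ((Λ n - th n : ℝ) : ℂ) * ex (n * α)‖ := by
        gcongr
        exact norm_sub_le _ _
    _ ≤ (768 * C₁ * D * Real.log H ^ 6 + 768 * C₁ * D * Real.log H ^ 6) +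
        8 * C₂ * D * Real.log H ^ 6 :=
        add_le_add (add_le_add (hS _ le_rfl) (hS _ (by omega))) hE
    _ ≤ (1536 * C₁ + 8 * C₂ + 1) * D * Real.log H ^ 6 := by
        have := mul_pos hD0 hLL
        nlinarith
    _ = _ := by rw [hDs]; ring

end Pool.Agent.Helper69.MV
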