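import Pool.Agent.Helper23.MV.StL

set_option autoImplicit false

namespace Pool.Agent.Helper69.MV

open Finset ArithmeticFunction
open Pool.Agent.Helper23.MV

private noncomputable def mukG (th Y b : ℝ) : ℝ :=
  th ^ 2 * Real.exp (-th * b) * (Y - b) + 2 * th * Real.exp (-th * b)

private lemma mukG_cont (th Y : ℝ) : Continuous (mukG th Y) := by
  unfold mukG
  fun_prop

private lemma mukG_nonneg (th Y b : ℝ) (hth : 0 ≤ th) (hb : b ≤ Y) : 0 ≤ mukG th Y b := by
  unfold mukG
  have h1 : 0 ≤ Real.exp (-th * b) := (Real.exp_pos _).le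
  have h2 : 0 ≤ Y - b := by linarith
  positivity

private lemma muk_exp_deriv (th b : ℝ) :
    HasDerivAt (fun b : ℝ => Real.exp (-th * b)) (-th * Real.exp (-th * b)) b := by
  have h1 : HasDerivAt (fun b : ℝ => -th * b) (-th) b := by
    simpa using (hasDerivAt_id b).const_mul (-th)
  have h2 := h1.exp
  convert h2 using 1
  ring

private lemma muk_int1 (th Y a : ℝ) :
    ∫ b in a..Y, mukG th Y b * (b - a) =
      Real.exp (-th * a) * (Y - a) - Real.exp (-th * Y) * (Y - a) := by
  have hd : ∀ b ∈ Set.uIcc a Y, HasDerivAt (fun b : ℝ =>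
      (-(th * Real.exp (-th * b) * (Y - b)) - Real.exp (-th * b)) * (b - a) -
        Real.exp (-th * b) * (Y - b)) (mukG th Y b * (b - a)) b := by
    intro b _
    have he := muk_exp_deriv th b
    have hy : HasDerivAt (fun b : ℝ => Y - b) (-1) b := by
      simpa using (hasDerivAt_id b).const_sub Y
    have ha : HasDerivAt (fun b : ℝ => b - a) 1 b := by
      simpa using (hasDerivAt_id b).sub_const a
    have h1 := ((((he.const_mul th).mul hy).neg.sub he).mul ha).sub (he.mul hy)
    have e : mukG th Y b * (b - a) =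
        (-(th * (-th * Real.exp (-th * b)) * (Y - b) + th * Real.exp (-th * b) * -1) -
            -th * Real.exp (-th * b)) * (b - a) +
          (-(th * Real.exp (-th * b) * (Y - b)) - Real.exp (-th * b)) * 1 -
          (-th * Real.exp (-th * b) * (Y - b) + Real.exp (-th * b) * -1) := by
      unfold mukG
      ring
    rw [e]
    exact h1
  rw [intervalIntegral.integral_eq_sub_of_hasDerivAt hd
    (((mukG_cont th Y).mul (by fun_prop)).intervalIntegrable _ _)]
  ring

private lemma muk_int2 (th Y a : ℝ) (ha : 0 ≤ a) (haY : a ≤ Y) :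
    ∫ b in (0 : ℝ)..Y, mukG th Y b * max (b - a) 0 =
      Real.exp (-th * a) * (Y - a) - Real.exp (-th * Y) * (Y - a) := by
  have hc : Continuous (fun b : ℝ => mukG th Y b * max (b - a) 0) :=
    (mukG_cont th Y).mul (by fun_prop)
  rw [← intervalIntegral.integral_add_adjacent_intervals (b := a) (hc.intervalIntegrable _ _)
    (hc.intervalIntegrable _ _)]
  have h1 : ∫ b in (0 : ℝ)..a, mukG th Y b * max (b - a) 0 = 0 := by
    rw [intervalIntegral.integral_congr (g := fun _ => (0 : ℝ))]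
    · simp
    · intro b hb
      rw [Set.uIcc_of_le ha] at hb
      have : max (b - a) 0 = 0 := max_eq_right (by linarith [hb.2])
      simp [this]
  have h2 : ∫ b in a..Y, mukG th Y b * max (b - a) 0 = ∫ b in a..Y, mukG th Y b * (b - a) := by
    apply intervalIntegral.integral_congr
    intro b hb
    rw [Set.uIcc_of_le haY] at hb
    have : max (b - a) 0 = b - a := max_eq_left (by linarith [hb.1])
    simp [this]
  rw [h1, h2, zero_add, muk_int1]

private lemma muk_int3 (th Y : ℝ) :
    ∫ b in (0 : ℝ)..Y, mukG th Y b = 1 + th * Y - Real.exp (-th * Y) := by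
  have hd : ∀ b ∈ Set.uIcc 0 Y, HasDerivAt (fun b : ℝ =>
      -(th * Real.exp (-th * b) * (Y - b)) - Real.exp (-th * b)) (mukG th Y b) b := by
    intro b _
    have he := muk_exp_deriv th b
    have hy : HasDerivAt (fun b : ℝ => Y - b) (-1) b := by
      simpa using (hasDerivAt_id b).const_sub Y
    have h1 := ((he.const_mul th).mul hy).neg.sub he
    have e : mukG th Y b =
        -(th * (-th * Real.exp (-th * b)) * (Y - b) + th * Real.exp (-th * b) * -1) -
            -th * Real.exp (-th * b) := by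
      unfold mukG
      ring
    rw [e]
    exact h1
  rw [intervalIntegral.integral_eq_sub_of_hasDerivAt hd
    ((mukG_cont th Y).intervalIntegrable _ _)]
  simp
  ring

/-- The sum `g(v)` for `v = e^b`, `b ≤ log y`. -/
private lemma muk_g (y b : ℝ) (hy : 1 ≤ y) (hb : b ≤ Real.log y) :
    ∑ m ∈ Icc 1 ⌊y⌋₊, (moebius m : ℝ) / m * max (b - Real.log m) 0 =
      ∑ m ∈ Icc 1 ⌊Real.exp b⌋₊, (moebius m : ℝ) / m * Real.log (Real.exp b / m) := by
  have hle : Real.exp b ≤ y := by
    rw [← Real.exp_log (by linarith : (0 : ℝ) < y)]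
    exact Real.exp_le_exp.mpr hb
  have hsub : Icc 1 ⌊Real.exp b⌋₊ ⊆ Icc 1 ⌊y⌋₊ :=
    Finset.Icc_subset_Icc le_rfl (Nat.floor_le_floor hle)
  rw [← Finset.sum_subset hsub]
  · apply Finset.sum_congr rfl
    intro m hm
    rw [Finset.mem_Icc] at hm
    have hm0 : (0 : ℝ) < m := by exact_mod_cast hm.1
    have hme : (m : ℝ) ≤ Real.exp b := (Nat.le_floor_iff (Real.exp_pos b).le).mp hm.2
    have hlog : Real.log m ≤ b := by
      rw [Real.log_le_iff_le_exp hm0]; exact hme
    rw [max_eq_left (by linarith), Real.log_div (Real.exp_pos b).ne' hm0.ne', Real.log_exp]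
  · intro m hm hm2
    rw [Finset.mem_Icc] at hm hm2
    have hm0 : (0 : ℝ) < m := by exact_mod_cast hm.1
    have h1 : ¬ m ≤ ⌊Real.exp b⌋₊ := fun h => hm2 ⟨hm.1, h⟩
    have hme : Real.exp b < m := by
      rw [not_le] at h1
      exact (Nat.floor_lt (Real.exp_pos b).le).mp h1
    have hlog : b < Real.log m := by
      rw [Real.lt_log_iff_exp_lt hm0]; exact hme
    rw [max_eq_right (by linarith), mul_zero]

private lemma muk_one (C : ℝ)
    (h : ∀ y : ℝ, 1 ≤ y → |∑ m ∈ Icc 1 ⌊y⌋₊, (moebius m : ℝ) / m * Real.log (y / m)| ≤ C)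
    (y th : ℝ) (hy : 1 ≤ y) (hth : 0 ≤ th) (hty : th * Real.log y ≤ 1) :
    |∑ m ∈ Icc 1 ⌊y⌋₊, (moebius m : ℝ) * (m : ℝ) ^ (-1 - th) * Real.log (y / m)| ≤ 2 * C := by
  set Y := Real.log y with hY
  have hY0 : 0 ≤ Y := Real.log_nonneg hy
  have hC0 : 0 ≤ C := le_trans (abs_nonneg _) (h 1 le_rfl)
  have key : ∑ m ∈ Icc 1 ⌊y⌋₊, (moebius m : ℝ) * (m : ℝ) ^ (-1 - th) * Real.log (y / m) =
      Real.exp (-th * Y) * ∑ m ∈ Icc 1 ⌊y⌋₊, (moebius m : ℝ) / m * Real.log (y / m) +
        ∫ b in (0 : ℝ)..Y, mukG th Y b *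
          ∑ m ∈ Icc 1 ⌊y⌋₊, (moebius m : ℝ) / m * max (b - Real.log m) 0 := by
    have h2 : (fun b : ℝ => mukG th Y b *
        ∑ m ∈ Icc 1 ⌊y⌋₊, (moebius m : ℝ) / m * max (b - Real.log m) 0) =
        fun b : ℝ => ∑ m ∈ Icc 1 ⌊y⌋₊, (moebius m : ℝ) / m *
          (mukG th Y b * max (b - Real.log m) 0) := by
      funext b
      rw [Finset.mul_sum]
      apply Finset.sum_congr rfl
      intro m _
      ring
    rw [h2, intervalIntegral.integral_finsetSum, Finset.mul_sum, ← Finset.sum_add_distrib]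
    · apply Finset.sum_congr rfl
      intro m hm
      rw [Finset.mem_Icc] at hm
      have hm0 : (0 : ℝ) < m := by exact_mod_cast hm.1
      have hm1 : (1 : ℝ) ≤ m := by exact_mod_cast hm.1
      have hmy : (m : ℝ) ≤ y := (Nat.le_floor_iff (by linarith)).mp hm.2
      have hl0 : 0 ≤ Real.log m := Real.log_nonneg hm1
      have hlY : Real.log m ≤ Y := Real.log_le_log hm0 hmy
      rw [intervalIntegral.integral_const_mul, muk_int2 th Y _ hl0 hlY,
        Real.log_div (by linarith : y ≠ 0) hm0.ne', ← hY]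
      have hpow : (m : ℝ) ^ (-1 - th) = (1 / m) * Real.exp (-th * Real.log m) := by
        rw [show (-1 - th) = (-1) + (-th) by ring, Real.rpow_add hm0, Real.rpow_neg_one,
          Real.rpow_def_of_pos hm0 (-th), mul_comm (Real.log (m : ℝ)) (-th), one_div]
      rw [hpow]
      ring
    · intro m _
      exact (continuous_const.mul ((mukG_cont th Y).mul
        (by fun_prop : Continuous fun b : ℝ => max (b - Real.log m) 0))).intervalIntegrable _ _
  rw [key]
  have hb1 : |Real.exp (-th * Y) *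
      ∑ m ∈ Icc 1 ⌊y⌋₊, (moebius m : ℝ) / m * Real.log (y / m)| ≤ Real.exp (-th * Y) * C := by
    rw [abs_mul, abs_of_pos (Real.exp_pos _)]
    exact mul_le_mul_of_nonneg_left (h y hy) (Real.exp_pos _).le
  have hb2 : |∫ b in (0 : ℝ)..Y, mukG th Y b *
      ∑ m ∈ Icc 1 ⌊y⌋₊, (moebius m : ℝ) / m * max (b - Real.log m) 0| ≤
      (1 + th * Y - Real.exp (-th * Y)) * C := by
    rw [← muk_int3 th Y, ← intervalIntegral.integral_mul_const]
    rw [← Real.norm_eq_abs]
    apply intervalIntegral.norm_integral_le_of_norm_le hY0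
    · apply MeasureTheory.ae_of_all
      intro b hb
      rw [Real.norm_eq_abs, abs_mul, abs_of_nonneg (mukG_nonneg th Y b hth hb.2)]
      apply mul_le_mul_of_nonneg_left _ (mukG_nonneg th Y b hth hb.2)
      rw [muk_g y b hy hb.2]
      exact h _ (Real.one_le_exp hb.1.le)
    · exact ((mukG_cont th Y).mul continuous_const).intervalIntegrable _ _
  calc _ ≤ _ := abs_add_le _ _
    _ ≤ Real.exp (-th * Y) * C + (1 + th * Y - Real.exp (-th * Y)) * C := add_le_add hb1 hb2
    _ = (1 + th * Y) * C := by ring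
    _ ≤ 2 * C := mul_le_mul_of_nonneg_right (by linarith) hC0

/-- sum over the integers free of the primes of `S` -/
private noncomputable def mukH (S : Finset ℕ) (th y : ℝ) : ℝ :=
  ∑ m ∈ (Icc 1 ⌊y⌋₊).filter (fun m => ∀ p ∈ S, ¬ p ∣ m),
    (moebius m : ℝ) * (m : ℝ) ^ (-1 - th) * Real.log (y / m)

private lemma mukH_step (S : Finset ℕ) (p : ℕ) (hp : p.Prime) (hpS : p ∉ S)
    (hS : ∀ q ∈ S, q.Prime) (th y : ℝ) (hy : 1 ≤ y) :
    mukH (insert p S) th y = mukH S th y + (p : ℝ) ^ (-1 - th) * mukH (insert p S) th (y / p) := by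
  have hp0 : (0 : ℝ) < p := by exact_mod_cast hp.pos
  unfold mukH
  rw [← Finset.sum_filter_add_sum_filter_not ((Icc 1 ⌊y⌋₊).filter (fun m => ∀ q ∈ S, ¬ q ∣ m))
    (fun m => ¬ p ∣ m)]
  have e1 : ((Icc 1 ⌊y⌋₊).filter (fun m => ∀ q ∈ S, ¬ q ∣ m)).filter (fun m => ¬ p ∣ m) =
      (Icc 1 ⌊y⌋₊).filter (fun m => ∀ q ∈ insert p S, ¬ q ∣ m) := by
    ext m
    simp only [Finset.mem_filter, Finset.mem_insert, forall_eq_or_imp]
    tauto
  rw [e1]
  have e2 : ∑ m ∈ ((Icc 1 ⌊y⌋₊).filter (fun m => ∀ q ∈ S, ¬ q ∣ m)).filter (fun m => ¬ ¬ p ∣ m),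
      (moebius m : ℝ) * (m : ℝ) ^ (-1 - th) * Real.log (y / m) =
      -((p : ℝ) ^ (-1 - th) * ∑ m ∈ (Icc 1 ⌊y / p⌋₊).filter (fun m => ∀ q ∈ insert p S, ¬ q ∣ m),
        (moebius m : ℝ) * (m : ℝ) ^ (-1 - th) * Real.log (y / p / m)) := by
    have e3 : ∑ m ∈ ((Icc 1 ⌊y⌋₊).filter (fun m => ∀ q ∈ S, ¬ q ∣ m)).filter
        (fun m => ¬ ¬ p ∣ m), (moebius m : ℝ) * (m : ℝ) ^ (-1 - th) * Real.log (y / m) =
        ∑ m ∈ (Icc 1 ⌊y / p⌋₊).filter (fun m => ∀ q ∈ S, ¬ q ∣ m),
          (moebius (p * m) : ℝ) * ((p * m : ℕ) : ℝ) ^ (-1 - th) * Real.log (y / (p * m : ℕ)) := by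
      symm
      apply Finset.sum_nbij (fun m => p * m)
      · intro m hm
        simp only [Finset.mem_filter, Finset.mem_Icc, not_not] at hm ⊢
        obtain ⟨⟨h1, h2⟩, h3⟩ := hm
        have hmy : (m : ℝ) ≤ y / p := (Nat.le_floor_iff (by positivity)).mp h2
        refine ⟨⟨⟨Nat.mul_pos hp.pos h1, ?_⟩, ?_⟩, dvd_mul_right p m⟩
        · rw [Nat.le_floor_iff (by linarith)]
          push_cast
          rw [le_div_iff₀ hp0] at hmy
          linarith
        · intro q hq hd
          rcases (Nat.Prime.dvd_mul (hS q hq)).mp hd with h | h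
          · have := (Nat.prime_dvd_prime_iff_eq (hS q hq) hp).mp h
            exact hpS (this ▸ hq)
          · exact h3 q hq h
      · intro a _ b _ hab
        exact Nat.eq_of_mul_eq_mul_left hp.pos hab
      · intro m hm
        simp only [Finset.coe_filter, Finset.mem_filter, Finset.mem_Icc, Set.mem_ofPred_eq,
          not_not, Set.mem_image] at hm ⊢
        obtain ⟨⟨⟨h1, h2⟩, h3⟩, c, rfl⟩ := hm
        refine ⟨c, ⟨⟨?_, ?_⟩, ?_⟩, rfl⟩
        · rcases Nat.eq_zero_or_pos c with h | h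
          · subst h; simp at h1
          · exact h
        · have : ((p * c : ℕ) : ℝ) ≤ y := (Nat.le_floor_iff (by linarith)).mp h2
          rw [Nat.le_floor_iff (by positivity), le_div_iff₀ hp0]
          push_cast at this
          linarith
        · intro q hq hd
          exact h3 q hq (hd.mul_left p)
      · intro m _
        rfl
    rw [e3, ← neg_mul, Finset.mul_sum]
    have e4 : (Icc 1 ⌊y / p⌋₊).filter (fun m => ∀ q ∈ insert p S, ¬ q ∣ m) =
        ((Icc 1 ⌊y / p⌋₊).filter (fun m => ∀ q ∈ S, ¬ q ∣ m)).filter (fun m => ¬ p ∣ m) := by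
      ext m
      simp only [Finset.mem_filter, Finset.mem_insert, forall_eq_or_imp]
      tauto
    rw [e4, Finset.sum_filter (fun m => ¬ p ∣ m)]
    apply Finset.sum_congr rfl
    intro m hm
    simp only [Finset.mem_filter, Finset.mem_Icc] at hm
    have hm0 : (0 : ℝ) < m := by exact_mod_cast hm.1.1
    by_cases hd : p ∣ m
    · have : moebius (p * m) = 0 := by
        apply moebius_eq_zero_of_not_squarefree
        intro hsq
        obtain ⟨c, rfl⟩ := hd
        have := hsq p ⟨c, by ring⟩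
        exact hp.not_isUnit this
      simp [this, hd]
    · have hcop : Nat.Coprime p m := (Nat.Prime.coprime_iff_not_dvd hp).mpr hd
      have : moebius (p * m) = - moebius m := by
        rw [isMultiplicative_moebius.map_mul_of_coprime hcop, moebius_apply_prime hp]
        ring
      rw [this, if_pos hd]
      push_cast
      rw [Real.mul_rpow hp0.le hm0.le, div_div]
      ring
  rw [e2]
  ring

private lemma mukH_bound (D : ℝ) (th : ℝ) (hth : 0 ≤ th)
    (h : ∀ y : ℝ, 1 ≤ y → th * Real.log y ≤ 1 →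
      |∑ m ∈ Icc 1 ⌊y⌋₊, (moebius m : ℝ) * (m : ℝ) ^ (-1 - th) * Real.log (y / m)| ≤ D)
    (S : Finset ℕ) (hS : ∀ q ∈ S, q.Prime) :
    ∀ y : ℝ, 1 ≤ y → th * Real.log y ≤ 1 → |mukH S th y| ≤ D * ∏ p ∈ S, (1 - (p : ℝ)⁻¹)⁻¹ := by
  have hD0 : 0 ≤ D := le_trans (abs_nonneg _) (h 1 le_rfl (by simp))
  induction S using Finset.induction_on with
  | empty =>
    intro y hy hty
    simpa [mukH] using h y hy hty
  | insert p S hpS ih =>
    have hp : p.Prime := hS p (Finset.mem_insert_self _ _)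
    have hS' : ∀ q ∈ S, q.Prime := fun q hq => hS q (Finset.mem_insert_of_mem hq)
    have ih := ih hS'
    have hp0 : (0 : ℝ) < p := by exact_mod_cast hp.pos
    have hp1 : (1 : ℝ) < p := by exact_mod_cast hp.one_lt
    have hp2 : (2 : ℝ) ≤ p := by exact_mod_cast hp.two_le
    set B := D * ∏ q ∈ S, (1 - (q : ℝ)⁻¹)⁻¹ with hB
    have hB0 : 0 ≤ B := le_trans (abs_nonneg _) (ih 1 le_rfl (by simp))
    have hpinv : (p : ℝ)⁻¹ < 1 := inv_lt_one_of_one_lt₀ hp1
    have hpos : 0 < 1 - (p : ℝ)⁻¹ := by linarith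
    rw [Finset.prod_insert hpS]
    have main : ∀ n : ℕ, ∀ y : ℝ, 1 ≤ y → y ≤ n → th * Real.log y ≤ 1 →
        |mukH (insert p S) th y| ≤ B * (1 - (p : ℝ)⁻¹)⁻¹ := by
      intro n
      induction n using Nat.strong_induction_on with
      | _ n ihn =>
        intro y hy hyn hty
        rw [mukH_step S p hp hpS hS' th y hy]
        have hb : |mukH (insert p S) th (y / p)| ≤ B * (1 - (p : ℝ)⁻¹)⁻¹ := by
          by_cases h1 : 1 ≤ y / p
          · have hlt : y / p ≤ ((n - 1 : ℕ) : ℝ) := by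
              have hn1 : 1 ≤ n := by
                have : (1 : ℝ) ≤ n := le_trans hy hyn
                exact_mod_cast this
              rw [Nat.cast_sub hn1, Nat.cast_one]
              have h3 : y / p ≤ y / 2 := div_le_div_of_nonneg_left (by linarith) (by norm_num) hp2
              have h4 : (2 : ℝ) ≤ y := by
                rw [le_div_iff₀ hp0] at h1
                linarith
              linarith
            have hn1 : n - 1 < n := by
              have : (1 : ℝ) ≤ n := le_trans hy hyn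
              have : 1 ≤ n := by exact_mod_cast this
              omega
            apply ihn (n - 1) hn1 (y / p) h1 hlt
            refine le_trans ?_ hty
            apply mul_le_mul_of_nonneg_left _ hth
            apply Real.log_le_log (by linarith)
            exact div_le_self (by linarith) hp1.le
          · have hf : ⌊y / p⌋₊ = 0 := by
              rw [Nat.floor_eq_zero]
              exact not_le.mp h1
            simp only [mukH, hf]
            simp
            positivity
        have hpw : (p : ℝ) ^ (-1 - th) ≤ (p : ℝ)⁻¹ := by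
          rw [← Real.rpow_neg_one]
          exact Real.rpow_le_rpow_of_exponent_le hp1.le (by linarith)
        have hpw0 : 0 ≤ (p : ℝ) ^ (-1 - th) := Real.rpow_nonneg hp0.le _
        calc |mukH S th y + (p : ℝ) ^ (-1 - th) * mukH (insert p S) th (y / p)|
            ≤ |mukH S th y| + |(p : ℝ) ^ (-1 - th) * mukH (insert p S) th (y / p)| :=
              abs_add_le _ _
          _ = |mukH S th y| + (p : ℝ) ^ (-1 - th) * |mukH (insert p S) th (y / p)| := by
              rw [abs_mul, abs_of_nonneg hpw0]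
          _ ≤ B + (p : ℝ)⁻¹ * (B * (1 - (p : ℝ)⁻¹)⁻¹) := by
              apply add_le_add (ih y hy hty)
              exact mul_le_mul hpw hb (abs_nonneg _) (by positivity)
          _ = B * (1 - (p : ℝ)⁻¹)⁻¹ := by
              have hne : 1 - (p : ℝ)⁻¹ ≠ 0 := hpos.ne'
              have hone : (1 - (p : ℝ)⁻¹) * (1 - (p : ℝ)⁻¹)⁻¹ = 1 := mul_inv_cancel₀ hne
              linear_combination (-B) * hone
    intro y hy hty
    have := main ⌈y⌉₊ y hy (Nat.le_ceil y) hty
    calc _ ≤ _ := this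
      _ = _ := by rw [hB]; ring

theorem hMuk : StMuh → StMuk := by
  rintro ⟨C, hC1, h⟩
  refine ⟨2 * C, by linarith, ?_⟩
  intro k y th hk hy hth hty
  have h1 : ∀ y : ℝ, 1 ≤ y → th * Real.log y ≤ 1 →
      |∑ m ∈ Icc 1 ⌊y⌋₊, (moebius m : ℝ) * (m : ℝ) ^ (-1 - th) * Real.log (y / m)| ≤ 2 * C :=
    fun y hy hty => muk_one C h y th hy hth hty
  have h2 := mukH_bound (2 * C) th hth h1 k.primeFactors
    (fun q hq => Nat.prime_of_mem_primeFactors hq) y hy hty
  have e1 : mukH k.primeFactors th y = ∑ m ∈ (Icc 1 ⌊y⌋₊).filter (fun m => Nat.Coprime m k),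
      (moebius m : ℝ) * (m : ℝ) ^ (-1 - th) * Real.log (y / m) := by
    unfold mukH
    congr 1
    apply Finset.filter_congr
    intro m hm
    rw [Finset.mem_Icc] at hm
    constructor
    · intro hh
      apply Nat.Coprime.symm
      apply Nat.coprime_of_dvd
      intro q hq hqk hqm
      exact hh q (Nat.mem_primeFactors.mpr ⟨hq, hqk, by omega⟩) hqm
    · intro hc q hq hqm
      have hqp := Nat.prime_of_mem_primeFactors hq
      have hqk := Nat.dvd_of_mem_primeFactors hq
      exact Nat.not_coprime_of_dvd_of_dvd hqp.one_lt hqm hqk hc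
  have e2 : ∏ p ∈ k.primeFactors, (1 - (p : ℝ)⁻¹)⁻¹ = (k : ℝ) / k.totient := by
    have h3 := Nat.totient_eq_mul_prod_factors k
    have h4 : ((k.totient : ℕ) : ℝ) = (k : ℝ) * ∏ p ∈ k.primeFactors, (1 - (p : ℝ)⁻¹) := by
      have := congrArg (fun x : ℚ => (x : ℝ)) h3
      push_cast at this
      exact this
    rw [h4, Finset.prod_inv_distrib]
    have hk0 : (k : ℝ) ≠ 0 := by
      have : (0 : ℝ) < k := by exact_mod_cast hk
      exact this.ne'
    rw [div_mul_eq_div_div, div_self hk0, one_div]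
  rw [← e1, ← e2]
  exact h2

end Pool.Agent.Helper69.MV
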