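import Pool.Agent.Helper23.MV.StP

set_option autoImplicit false

namespace Pool.Agent.Helper69.MV

open Finset ArithmeticFunction MeasureTheory Filter Topology
open Pool.Agent.Helper23.MV
open Pool.Agent.Helper2.MR (ch)
open Pool.Agent.Helper15.AB (IsW)

private lemma spa_mwt (o : Option (PCh × ℝ)) (c : PCh) (η : ℝ) (ho : OKb o η) (m : ℕ) (hm : 1 ≤ m) :
    |mwt o c m| ≤ 2 := by
  have hm1 : (1 : ℝ) ≤ m := by exact_mod_cast hm
  rcases o with _ | ⟨e, δ⟩
  · unfold mwt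
    split_ifs <;> simp
  · have hδ := (ho e δ rfl).2.1
    have h1 : 0 ≤ (m : ℝ) ^ (-δ) := Real.rpow_nonneg (by linarith) _
    have h2 : (m : ℝ) ^ (-δ) ≤ 1 := Real.rpow_le_one_of_one_le_of_nonpos hm1 (by linarith)
    unfold mwt
    simp only
    rw [abs_le]
    split_ifs <;> constructor <;> linarith

private lemma spa_gm (w : ℝ → ℝ) (hw : IsW w) (o : Option (PCh × ℝ)) (c : PCh) (η : ℝ)
    (ho : OKb o η) (X m : ℕ) (hm : 1 ≤ m) : ‖gm o c w X m / m‖ ≤ 3 := by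
  have hm1 : (1 : ℝ) ≤ m := by exact_mod_cast hm
  have hm0 : (0 : ℝ) < m := by linarith
  unfold gm
  rw [norm_div, norm_mul, Complex.norm_natCast, div_le_iff₀ hm0]
  have h1 : ‖((w (Real.log (m / X)) : ℝ) : ℂ)‖ ≤ 1 := by
    rw [Complex.norm_real, Real.norm_eq_abs, abs_of_nonneg (hw.nonneg _)]
    exact hw.le_one _
  have h2 : ‖((Λ m : ℝ) : ℂ) * c.ev m - ((mwt o c m : ℝ) : ℂ)‖ ≤ m + 2 := by
    calc ‖((Λ m : ℝ) : ℂ) * c.ev m - ((mwt o c m : ℝ) : ℂ)‖
        ≤ ‖((Λ m : ℝ) : ℂ) * c.ev m‖ + ‖((mwt o c m : ℝ) : ℂ)‖ := norm_sub_le _ _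
      _ ≤ m + 2 := by
        apply add_le_add
        · rw [norm_mul, Complex.norm_real, Real.norm_eq_abs, abs_of_nonneg vonMangoldt_nonneg]
          have h3 : ‖c.ev m‖ ≤ 1 := by
            unfold PCh.ev
            exact DirichletCharacter.norm_le_one _ _
          have h4 : Λ m ≤ m := by
            refine le_trans vonMangoldt_le_log ?_
            exact (Real.log_le_sub_one_of_pos hm0).trans (by linarith)
          calc Λ m * ‖c.ev m‖ ≤ (m : ℝ) * 1 :=
                mul_le_mul h4 h3 (norm_nonneg _) hm0.le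
            _ = m := mul_one _
        · rw [Complex.norm_real, Real.norm_eq_abs]
          exact spa_mwt o c η ho m hm
  calc _ ≤ 1 * ((m : ℝ) + 2) := mul_le_mul h1 h2 (norm_nonneg _) zero_le_one
    _ ≤ 3 * m := by linarith

private lemma spa_ch (t : ℝ) (m : ℕ) : ‖ch t m‖ = 1 := by
  unfold ch
  exact Complex.norm_exp_ofReal_mul_I _

private lemma spa_GO (w : ℝ → ℝ) (hw : IsW w) (o : Option (PCh × ℝ)) (c : PCh) (η : ℝ)
    (ho : OKb o η) (X : ℕ) (t : ℝ) : ‖GO o c w X t‖ ≤ 9 * X := by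
  unfold GO
  calc _ ≤ ∑ m ∈ Icc 1 (3 * X), ‖gm o c w X m / m * ch t m‖ := norm_sum_le _ _
    _ ≤ ∑ m ∈ Icc 1 (3 * X), (3 : ℝ) := by
      apply Finset.sum_le_sum
      intro m hm
      rw [norm_mul, spa_ch, mul_one]
      exact spa_gm w hw o c η ho X m (Finset.mem_Icc.mp hm).1
    _ = 9 * X := by
      simp
      ring

private lemma spa_cont (w : ℝ → ℝ) (o : Option (PCh × ℝ)) (c : PCh) (X : ℕ) :
    Continuous (fun t => GO o c w X t) := by
  unfold GO ch
  apply continuous_finsetSum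
  intro m _
  fun_prop

private lemma spa_ev1 (η : ℝ) (hη : 0 < η) :
    ∀ᶠ X : ℕ in atTop, 2 * (X : ℝ) ^ (η / 10) ≤ (X : ℝ) ^ (η / 8) := by
  have h1 : Tendsto (fun X : ℕ => (X : ℝ) ^ (η / 40)) atTop atTop :=
    (tendsto_rpow_atTop (by positivity)).comp tendsto_natCast_atTop_atTop
  filter_upwards [h1.eventually_ge_atTop 2, eventually_ge_atTop 1] with X hX hX1
  have hX0 : (0 : ℝ) < X := by exact_mod_cast hX1
  rw [show η / 8 = η / 40 + η / 10 by ring, Real.rpow_add hX0]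
  exact mul_le_mul_of_nonneg_right hX (Real.rpow_nonneg hX0.le _)

private lemma spa_ev2 (η : ℝ) (hη : 0 < η) (hη1 : η ≤ 1 / 100) :
    ∀ᶠ X : ℕ in atTop, 9 * (X : ℝ) * Real.exp (-((X : ℝ) ^ (η / 10) / 4)) *
      √(Real.pi / (1 / (4 * ((X : ℝ) ^ (η / 20)) ^ 2))) ≤ (X : ℝ) ^ (-(η / 20)) := by
  have h0 : Tendsto (fun X : ℕ => (X : ℝ) ^ (η / 10)) atTop atTop :=
    (tendsto_rpow_atTop (by positivity)).comp tendsto_natCast_atTop_atTop
  have h1 := (tendsto_rpow_mul_exp_neg_mul_atTop_nhds_zero (20 / η) (1 / 4) (by norm_num)).comp h0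
  have h2 := h1.eventually (gt_mem_nhds (show (0 : ℝ) < 1 / 36 by norm_num))
  filter_upwards [h2, eventually_ge_atTop 1] with X hX hX1
  have hX1' : (1 : ℝ) ≤ X := by exact_mod_cast hX1
  have hX0 : (0 : ℝ) < X := by linarith
  have hT0 : 0 < (X : ℝ) ^ (η / 20) := Real.rpow_pos_of_pos hX0 _
  simp only [Function.comp] at hX
  rw [← Real.rpow_mul hX0.le, show η / 10 * (20 / η) = 2 by field_simp; norm_num] at hX
  have hexp : Real.exp (-(1 / 4) * (X : ℝ) ^ (η / 10)) = Real.exp (-((X : ℝ) ^ (η / 10) / 4)) := by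
    congr 1
    ring
  rw [hexp] at hX
  set E := Real.exp (-((X : ℝ) ^ (η / 10) / 4)) with hE
  have hE0 : 0 < E := Real.exp_pos _
  have hsq : √(Real.pi / (1 / (4 * ((X : ℝ) ^ (η / 20)) ^ 2))) ≤ 4 * (X : ℝ) ^ (η / 20) := by
    rw [Real.sqrt_le_left (by positivity)]
    have hpi : Real.pi ≤ 4 := Real.pi_le_four
    rw [div_div_eq_mul_div, div_one]
    nlinarith [sq_nonneg ((X : ℝ) ^ (η / 20))]
  have hXX : (X : ℝ) * (X : ℝ) ^ (η / 20) ≤ (X : ℝ) ^ (-(η / 20)) * (X : ℝ) ^ (2 : ℝ) := by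
    rw [← Real.rpow_add hX0]
    nth_rewrite 1 [← Real.rpow_one (X : ℝ)]
    rw [← Real.rpow_add hX0]
    exact Real.rpow_le_rpow_of_exponent_le hX1' (by linarith)
  have hP0 : 0 < (X : ℝ) ^ (-(η / 20)) := Real.rpow_pos_of_pos hX0 _
  calc 9 * (X : ℝ) * E * √(Real.pi / (1 / (4 * ((X : ℝ) ^ (η / 20)) ^ 2)))
      ≤ 9 * (X : ℝ) * E * (4 * (X : ℝ) ^ (η / 20)) :=
        mul_le_mul_of_nonneg_left hsq (by positivity)
    _ = 36 * E * ((X : ℝ) * (X : ℝ) ^ (η / 20)) := by ring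
    _ ≤ 36 * E * ((X : ℝ) ^ (-(η / 20)) * (X : ℝ) ^ (2 : ℝ)) :=
        mul_le_mul_of_nonneg_left hXX (by positivity)
    _ = (X : ℝ) ^ (-(η / 20)) * (36 * ((X : ℝ) ^ (2 : ℝ) * E)) := by ring
    _ ≤ (X : ℝ) ^ (-(η / 20)) * 1 := by
        apply mul_le_mul_of_nonneg_left _ hP0.le
        linarith
    _ = _ := mul_one _

theorem hSpa : StBdl → StGwf → StSpa := by
  rintro ⟨-, hB⟩ hG w hw
  obtain ⟨C, hC, η₁, hη₁, hη₁', hB⟩ := hB w hw
  refine ⟨C, hC, η₁, hη₁, hη₁', ?_⟩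
  intro η hη hηle
  obtain ⟨X1, hX1, hB⟩ := hB η hη hηle
  have hη100 : η ≤ 1 / 100 := hηle.trans hη₁'
  obtain ⟨X2, hX2⟩ := eventually_atTop.mp ((spa_ev1 η hη).and (spa_ev2 η hη hη100))
  refine ⟨max X1 X2, le_trans hX1 (le_max_left _ _), ?_⟩
  intro X o c u hX ho hc
  have hXX1 : X1 ≤ X := le_trans (le_max_left _ _) hX
  have hXX2 : X2 ≤ X := le_trans (le_max_right _ _) hX
  obtain ⟨hv1, hv2⟩ := hX2 X hXX2
  have hX1r : (1 : ℝ) ≤ X := by exact_mod_cast (by omega : 1 ≤ X)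
  have hX0 : (0 : ℝ) < X := by linarith
  set T := (X : ℝ) ^ (η / 20) with hT
  have hT0 : 0 < T := Real.rpow_pos_of_pos hX0 _
  obtain ⟨W2, hW2c, hW2, hW2i, hW2b⟩ := hG o c w X T ∅ (by omega) hT0 MeasurableSet.empty
  rw [Measure.restrict_empty, integral_zero_measure] at hW2b
  have hz : (fun u => ‖W2 u‖ ^ 2) = fun _ => (0 : ℝ) := by
    have h1 : ∫ u, ‖W2 u‖ ^ 2 = 0 :=
      le_antisymm hW2b (integral_nonneg (fun u => by positivity))
    have h2 := (integral_eq_zero_iff_of_nonneg (fun u => by positivity) hW2i).mp h1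
    exact (Continuous.ae_eq_iff_eq volume (by fun_prop) continuous_const).mp h2
  have hW0 : W2 u = 0 := by
    have h1 := congrFun hz u
    simpa using h1
  have h1 := hW2 u
  rw [hW0, sub_zero, Set.compl_empty, Measure.restrict_univ] at h1
  refine h1.trans ?_
  set A : Set ℝ := Set.Icc (-(X : ℝ) ^ (η / 10)) ((X : ℝ) ^ (η / 10)) with hA
  have hAm : MeasurableSet A := measurableSet_Icc
  have hGc := spa_cont w o c X
  set F : ℝ → ℝ := fun t => Real.exp (-(t ^ 2 / (2 * T ^ 2))) * ‖GO o c w X t‖ with hF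
  have hFc : Continuous F := by
    rw [hF]
    exact (by fun_prop : Continuous fun t : ℝ => Real.exp (-(t ^ 2 / (2 * T ^ 2)))).mul hGc.norm
  have hFi : Integrable F := by
    have hg : Integrable (fun t : ℝ => 9 * (X : ℝ) * Real.exp (-(1 / (2 * T ^ 2)) * t ^ 2)) :=
      (integrable_exp_neg_mul_sq (by positivity)).const_mul _
    apply hg.mono' hFc.aestronglyMeasurable
    apply ae_of_all
    intro t
    rw [hF]
    simp only
    rw [Real.norm_eq_abs, abs_mul, abs_of_pos (Real.exp_pos _), abs_of_nonneg (norm_nonneg _),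
      mul_comm]
    have he : -(t ^ 2 / (2 * T ^ 2)) = -(1 / (2 * T ^ 2)) * t ^ 2 := by ring
    rw [he]
    exact mul_le_mul_of_nonneg_right (spa_GO w hw o c η ho X t) (Real.exp_pos _).le
  rw [← integral_add_compl hAm hFi]
  have hb1 : ∫ t in A, F t ≤ C * ZS o c (2 * η) X X + (X : ℝ) ^ (-(η / 20)) := by
    refine le_trans ?_ (hB X o c A hXX1 ho hc hAm ?_ ?_)
    · apply setIntegral_mono_on hFi.integrableOn _ hAm
      · intro t _
        rw [hF]
        simp only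
        have h2 : Real.exp (-(t ^ 2 / (2 * T ^ 2))) ≤ 1 := by
          rw [Real.exp_le_one_iff]
          have : 0 ≤ t ^ 2 / (2 * T ^ 2) := by positivity
          linarith
        calc _ ≤ 1 * ‖GO o c w X t‖ := mul_le_mul_of_nonneg_right h2 (norm_nonneg _)
          _ = _ := one_mul _
      · exact hGc.norm.continuousOn.integrableOn_Icc
    · have h3 : (X : ℝ) ^ (η / 10) ≤ (X : ℝ) ^ (3 / 4 : ℝ) :=
        Real.rpow_le_rpow_of_exponent_le hX1r (by linarith)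
      exact Set.Icc_subset_Icc (by linarith) h3
    · rw [hA, Real.volume_Icc]
      apply ENNReal.ofReal_le_ofReal
      linarith
  have hb2 : ∫ t in Aᶜ, F t ≤ (X : ℝ) ^ (-(η / 20)) := by
    refine le_trans ?_ hv2
    have hg : Integrable (fun t : ℝ => 9 * (X : ℝ) * Real.exp (-((X : ℝ) ^ (η / 10) / 4)) *
        Real.exp (-(1 / (4 * T ^ 2)) * t ^ 2)) :=
      (integrable_exp_neg_mul_sq (by positivity)).const_mul _
    have h4 : ∫ t : ℝ, 9 * (X : ℝ) * Real.exp (-((X : ℝ) ^ (η / 10) / 4)) *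
        Real.exp (-(1 / (4 * T ^ 2)) * t ^ 2) =
        9 * (X : ℝ) * Real.exp (-((X : ℝ) ^ (η / 10) / 4)) * √(Real.pi / (1 / (4 * T ^ 2))) := by
      rw [integral_const_mul, integral_gaussian]
    rw [← h4]
    refine le_trans ?_ (setIntegral_le_integral hg (ae_of_all _ (fun t => by positivity)) :
      ∫ t in Aᶜ, _ ≤ _)
    apply setIntegral_mono_on hFi.integrableOn hg.integrableOn hAm.compl
    intro t ht
    rw [hF]
    simp only
    have ht2 : (X : ℝ) ^ (η / 10) < |t| := by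
      rw [hA, Set.mem_compl_iff, Set.mem_Icc, ← abs_le, not_le] at ht
      exact ht
    have hY0 : 0 < (X : ℝ) ^ (η / 10) := Real.rpow_pos_of_pos hX0 _
    have hTT : T ^ 2 = (X : ℝ) ^ (η / 10) := by
      rw [hT, ← Real.rpow_natCast, ← Real.rpow_mul hX0.le]
      congr 1
      push_cast
      ring
    have ht3 : (X : ℝ) ^ (η / 10) * (X : ℝ) ^ (η / 10) ≤ t ^ 2 := by
      rw [← sq_abs t]
      nlinarith
    have h5 : -(t ^ 2 / (2 * T ^ 2)) ≤ -((X : ℝ) ^ (η / 10) / 4) + -(1 / (4 * T ^ 2)) * t ^ 2 := by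
      have h6 : (X : ℝ) ^ (η / 10) / 4 ≤ t ^ 2 / (4 * T ^ 2) := by
        rw [div_le_div_iff₀ (by norm_num) (by positivity), hTT]
        linarith
      have h7 : t ^ 2 / (2 * T ^ 2) = t ^ 2 / (4 * T ^ 2) + 1 / (4 * T ^ 2) * t ^ 2 := by
        field_simp
        ring
      linarith
    calc Real.exp (-(t ^ 2 / (2 * T ^ 2))) * ‖GO o c w X t‖
        ≤ Real.exp (-((X : ℝ) ^ (η / 10) / 4) + -(1 / (4 * T ^ 2)) * t ^ 2) * (9 * X) :=
          mul_le_mul (Real.exp_le_exp.mpr h5) (spa_GO w hw o c η ho X t) (norm_nonneg _)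
            (Real.exp_pos _).le
      _ = 9 * (X : ℝ) * Real.exp (-((X : ℝ) ^ (η / 10) / 4)) *
          Real.exp (-(1 / (4 * T ^ 2)) * t ^ 2) := by
          rw [Real.exp_add]
          ring
  linarith

end Pool.Agent.Helper69.MV
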